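import Pool.Agent.Y318.MH.Stm

set_option autoImplicit false

/-! Project MH (helper318), job MH-FLOW: the flow of a periodic vector field on the torus. -/

open scoped ContDiff Topology Manifold NNReal
open Set Filter Metric

namespace Pool.Agent.Y220.MH

open Pool.Agent.H728R2.OS Pool.Agent.Y318.LF

/-! ### solutions -/

lemma local_solution {F : Type} [NormedAddCommGroup F] [NormedSpace ℝ F] [CompleteSpace F]
    {X : F → F} {K : ℝ≥0} (hK : LipschitzWith K X) (x : F) :
    ∃ γ : ℝ → F, γ 0 = x ∧ ∀ t ∈ Ioo (-(1 / (2 * ((K:ℝ) + 1)))) (1 / (2 * ((K:ℝ) + 1))),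
      HasDerivAt γ (X (γ t)) t := by
  set δ : ℝ := 1 / (2 * ((K:ℝ) + 1)) with hδ
  have hδ0 : 0 < δ := by positivity
  have h0 : (0:ℝ) ∈ Icc (-δ) δ := ⟨by linarith, hδ0.le⟩
  set a : ℝ≥0 := ‖X x‖₊ + 1 with ha
  have hpl : IsPicardLindelof (fun _ => X) (⟨0, h0⟩ : Icc (-δ) δ) x
      a 0 (‖X x‖₊ + K * a) K := by
    refine IsPicardLindelof.of_time_independent (fun y hy => ?_) (hK.lipschitzOnWith) ?_
    · have h1 : ‖X y - X x‖ ≤ K * ‖y - x‖ := by
        simpa [dist_eq_norm] using hK.dist_le_mul y x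
      have h2 : ‖y - x‖ ≤ a := by simpa [dist_eq_norm] using hy
      have h3 : ‖X y‖ ≤ ‖X x‖ + ‖X y - X x‖ := by
        have := norm_add_le (X x) (X y - X x)
        simpa using this
      have h4 : (K:ℝ) * ‖y - x‖ ≤ K * a := mul_le_mul_of_nonneg_left h2 K.2
      push_cast
      linarith
    · have e1 : max (δ - ((⟨0, h0⟩ : Icc (-δ) δ) : ℝ)) (((⟨0, h0⟩ : Icc (-δ) δ) : ℝ) - -δ) = δ := by
        simp
      rw [e1, hδ]
      push_cast
      rw [mul_one_div, div_le_iff₀ (by positivity)]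
      have hx : (0:ℝ) ≤ ‖X x‖ := norm_nonneg _
      have hk : (0:ℝ) ≤ K := K.2
      simp only [ha]
      push_cast
      nlinarith [mul_nonneg hk hx]
  obtain ⟨γ, h1, h2⟩ := hpl.exists_eq_forall_mem_Icc_hasDerivWithinAt₀
  exact ⟨γ, h1, fun t ht => (h2 t (Ioo_subset_Icc_self ht)).hasDerivAt (Icc_mem_nhds ht.1 ht.2)⟩

lemma global_solution {F : Type} [NormedAddCommGroup F] [NormedSpace ℝ F] [CompleteSpace F]
    {X : F → F} {K : ℝ≥0} (hX : ContDiff ℝ 1 X) (hK : LipschitzWith K X) (x : F) :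
    ∃ γ : ℝ → F, γ 0 = x ∧ ∀ t, HasDerivAt γ (X (γ t)) t := by
  have hv : ContMDiff 𝓘(ℝ, F) 𝓘(ℝ, F).tangent 1
      (fun x : F => (⟨x, X x⟩ : TangentBundle 𝓘(ℝ, F) F)) := by
    exact (contMDiff_vectorSpace_iff_contDiff (V := X)).2 hX
  obtain ⟨γ, h0, h1⟩ := exists_isMIntegralCurve_of_isMIntegralCurveOn (I := 𝓘(ℝ, F)) (M := F)
    (v := X) hv (ε := 1 / (2 * ((K:ℝ) + 1))) (by positivity) (fun y => by
      obtain ⟨γ, h0, h1⟩ := local_solution hK y
      refine ⟨γ, h0, fun t ht => ?_⟩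
      have := (h1 t ht).hasFDerivAt.hasMFDerivAt.hasMFDerivWithinAt (s := Ioo (-(1 / (2 * ((K:ℝ) + 1)))) (1 / (2 * ((K:ℝ) + 1))))
      exact this) x
  refine ⟨γ, h0, fun t => ?_⟩
  have h2 := h1 t
  have h3 : HasFDerivAt γ (ContinuousLinearMap.smulRight (1 : ℝ →L[ℝ] ℝ) (X (γ t))) t :=
    hasMFDerivAt_iff_hasFDerivAt.1 h2
  simpa using h3.hasDerivAt

/-- Gronwall, for all times -/
lemma gron {F : Type} [NormedAddCommGroup F] [NormedSpace ℝ F] {X : F → F} {K : ℝ≥0}
    (hK : LipschitzWith K X) {γ δ : ℝ → F} (hγ : ∀ t, HasDerivAt γ (X (γ t)) t)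
    (hδ : ∀ t, HasDerivAt δ (X (δ t)) t) (t : ℝ) :
    dist (γ t) (δ t) ≤ dist (γ 0) (δ 0) * Real.exp (K * |t|) := by
  rcases le_total 0 t with ht | ht
  · have h1 := dist_le_of_trajectories_ODE (v := fun _ => X) (K := K) (f := γ) (g := δ) (a := 0)
      (b := t) (fun _ => hK) (fun s _ => (hγ s).continuousAt.continuousWithinAt)
      (fun s _ => (hγ s).hasDerivWithinAt) (fun s _ => (hδ s).continuousAt.continuousWithinAt)
      (fun s _ => (hδ s).hasDerivWithinAt) le_rfl t ⟨ht, le_rfl⟩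
    rw [sub_zero] at h1
    rw [abs_of_nonneg ht]
    exact h1
  · have hK' : LipschitzWith K (fun x => -X x) := by
      intro x y
      have := hK x y
      rwa [edist_neg_neg]
    have hγ' : ∀ s, HasDerivAt (fun s => γ (-s)) (-X (γ (-s))) s := by
      intro s
      have h1 := (hγ (-s)).scomp s (hasDerivAt_neg s)
      rw [neg_smul, one_smul] at h1
      exact h1
    have hδ' : ∀ s, HasDerivAt (fun s => δ (-s)) (-X (δ (-s))) s := by
      intro s
      have h1 := (hδ (-s)).scomp s (hasDerivAt_neg s)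
      rw [neg_smul, one_smul] at h1
      exact h1
    have h1 := dist_le_of_trajectories_ODE (v := fun _ x => -X x) (K := K)
      (f := fun s => γ (-s)) (g := fun s => δ (-s)) (a := 0) (b := -t) (fun _ => hK')
      (fun s _ => (hγ' s).continuousAt.continuousWithinAt)
      (fun s _ => (hγ' s).hasDerivWithinAt)
      (fun s _ => (hδ' s).continuousAt.continuousWithinAt)
      (fun s _ => (hδ' s).hasDerivWithinAt) le_rfl (-t) ⟨by linarith, le_rfl⟩
    rw [sub_zero] at h1
    simp only [neg_neg, neg_zero] at h1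
    rw [abs_of_nonpos ht]
    exact h1

lemma uniq {F : Type} [NormedAddCommGroup F] [NormedSpace ℝ F] {X : F → F} {K : ℝ≥0}
    (hK : LipschitzWith K X) {γ δ : ℝ → F} (hγ : ∀ t, HasDerivAt γ (X (γ t)) t)
    (hδ : ∀ t, HasDerivAt δ (X (δ t)) t) (h0 : γ 0 = δ 0) (t : ℝ) : γ t = δ t := by
  have h1 := gron hK hγ hδ t
  rw [h0, dist_self, zero_mul] at h1
  exact dist_le_zero.1 h1

/-! ### periodic fields -/

lemma lip_of_per {d : ℕ} {Y : (Fin d → ℝ) → (Fin d → ℝ)} (hY : ContDiff ℝ 1 Y)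
    (hper : ∀ z n, IsInt n → Y (z + n) = Y z) : ∃ K : ℝ≥0, LipschitzWith K Y := by
  have hc : Continuous fun z => fderiv ℝ Y z := hY.continuous_fderiv one_ne_zero
  obtain ⟨M, hM⟩ := (isCompact_univ_pi (fun _ : Fin d =>
    isCompact_Icc (a := (0 : ℝ)) (b := 1))).exists_bound_of_continuousOn hc.continuousOn
  have key : ∀ z, ‖fderiv ℝ Y z‖ ≤ M := by
    intro z
    set n : Fin d → ℝ := fun i => -(⌊z i⌋ : ℝ) with hn
    have hnI : IsInt n := fun i => ⟨-⌊z i⌋, by simp [hn]⟩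
    have e1 : (fun w => Y (w + n)) = Y := by
      funext w
      exact hper w n hnI
    have e2 : fderiv ℝ (fun w => Y (w + n)) z = fderiv ℝ Y (z + n) := fderiv_comp_add_right n
    rw [e1] at e2
    rw [e2]
    refine hM _ ?_
    rw [Set.mem_univ_pi]
    intro i
    have h1 : (z + n) i = Int.fract (z i) := by
      simp only [Pi.add_apply, hn]
      rw [← sub_eq_add_neg]
      rfl
    rw [h1]
    exact ⟨Int.fract_nonneg _, (Int.fract_lt_one _).le⟩
  have hM0 : 0 ≤ M := (norm_nonneg _).trans (key 0)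
  refine ⟨⟨M, hM0⟩, lipschitzWith_of_nnnorm_fderiv_le (hY.differentiable one_ne_zero) fun z => ?_⟩
  exact key z

lemma circ_iff (a b : ℝ) : (a : UnitAddCircle) = (b : UnitAddCircle) ↔ ∃ n : ℤ, b - a = n := by
  rw [eq_comm, ← sub_eq_zero, ← AddCircle.coe_sub, AddCircle.coe_eq_zero_iff]
  constructor
  · rintro ⟨n, hn⟩
    exact ⟨n, by rw [← hn, zsmul_one]⟩
  · rintro ⟨n, hn⟩
    exact ⟨n, by rw [hn, zsmul_one]⟩

lemma tor_iff {d : ℕ} (z w : Fin d → ℝ) : toTorus z = toTorus w ↔ IsInt (w - z) := by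
  constructor
  · intro h i
    exact (circ_iff _ _).1 (congrFun h i)
  · intro h
    funext i
    exact (circ_iff _ _).2 (h i)

lemma tor_surj {d : ℕ} : Function.Surjective (toTorus : (Fin d → ℝ) → Torus d) := by
  intro x
  choose z hz using fun i => QuotientAddGroup.mk_surjective (x i)
  exact ⟨z, funext hz⟩

theorem flow : Pool.Agent.Y318.MH.S_FLOW := by
  intro d Y hY hper
  obtain ⟨K, hK⟩ := lip_of_per hY hper
  choose γ hγ0 hγ using fun z : Fin d → ℝ => global_solution hY hK z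
  -- periodicity and the group law
  have hp : ∀ z n, IsInt n → ∀ t, γ (z + n) t = γ z t + n := by
    intro z n hn t
    refine uniq hK (δ := fun t => γ z t + n) (hγ (z + n)) (fun t => ?_) ?_ t
    · have h1 := (hγ z t).add_const n
      rw [hper _ _ hn]
      exact h1
    · rw [hγ0, hγ0]
  have hg : ∀ z s t, γ z (s + t) = γ (γ z t) s := by
    intro z s t
    refine uniq hK (γ := fun s => γ z (s + t)) (fun s => ?_) (hγ (γ z t)) ?_ s
    · exact (hγ z (s + t)).comp_add_const s t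
    · simp only [zero_add]
      rw [hγ0]
  have hwd : ∀ z w, toTorus z = toTorus w → ∀ t, toTorus (γ z t) = toTorus (γ w t) := by
    intro z w h t
    rw [tor_iff] at h ⊢
    have h1 := hp z (w - z) h t
    rw [add_sub_cancel] at h1
    rw [h1, add_sub_cancel_left]
    exact h
  set rp : Torus d → (Fin d → ℝ) := Function.surjInv tor_surj with hrp
  have hrpt : ∀ x, toTorus (rp x) = x := Function.surjInv_eq tor_surj
  have hP : ∀ t z, toTorus (γ (rp (toTorus z)) t) = toTorus (γ z t) := fun t z =>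
    hwd _ _ (hrpt _) t
  refine ⟨fun t x => toTorus (γ (rp x) t), fun z => ⟨γ z, hγ0 z, hγ z, fun t => hP t z⟩,
    fun x => ?_, fun s t x => ?_, ?_⟩
  · show toTorus (γ (rp x) 0) = x
    rw [hγ0, hrpt]
  · show toTorus (γ (rp x) (s + t)) = toTorus (γ (rp (toTorus (γ (rp x) t))) s)
    rw [hP, hg]
  · -- continuity
    have hcont : Continuous fun p : ℝ × (Fin d → ℝ) => γ p.2 p.1 := by
      rw [continuous_iff_continuousAt]
      rintro ⟨t₀, z₀⟩
      rw [ContinuousAt, tendsto_iff_dist_tendsto_zero]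
      have hb : ∀ p : ℝ × (Fin d → ℝ), dist (γ p.2 p.1) (γ z₀ t₀) ≤
          dist p.2 z₀ * Real.exp (K * |p.1|) + dist (γ z₀ p.1) (γ z₀ t₀) := by
        intro p
        refine (dist_triangle _ (γ z₀ p.1) _).trans (add_le_add ?_ le_rfl)
        have := gron hK (hγ p.2) (hγ z₀) p.1
        rwa [hγ0, hγ0] at this
      have hc0 : Continuous (γ z₀) := by
        rw [continuous_iff_continuousAt]
        exact fun t => (hγ z₀ t).continuousAt
      have hlim : Tendsto (fun p : ℝ × (Fin d → ℝ) =>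
          dist p.2 z₀ * Real.exp (K * |p.1|) + dist (γ z₀ p.1) (γ z₀ t₀)) (𝓝 (t₀, z₀)) (𝓝 0) := by
        have h1 : Continuous fun p : ℝ × (Fin d → ℝ) =>
            dist p.2 z₀ * Real.exp (K * |p.1|) + dist (γ z₀ p.1) (γ z₀ t₀) := by
          have := hc0.comp (continuous_fst (X := ℝ) (Y := Fin d → ℝ))
          fun_prop
        have h2 := h1.tendsto (t₀, z₀)
        simpa using h2
      exact squeeze_zero (fun p => dist_nonneg) hb hlim
    have ho : IsOpenQuotientMap ((↑) : ℝ → UnitAddCircle) := QuotientAddGroup.isOpenQuotientMap_mk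
    have hq0 : IsOpenQuotientMap (toTorus : (Fin d → ℝ) → Torus d) :=
      IsOpenQuotientMap.piMap (fun _ : Fin d => ho)
    have hq : Topology.IsQuotientMap (Prod.map (id : ℝ → ℝ) (toTorus : (Fin d → ℝ) → Torus d)) :=
      (IsOpenQuotientMap.id.prodMap hq0).isQuotientMap
    rw [hq.continuous_iff]
    have h1 : (Function.uncurry fun (t : ℝ) (x : Torus d) => toTorus (γ (rp x) t)) ∘
        Prod.map (id : ℝ → ℝ) (toTorus : (Fin d → ℝ) → Torus d) =
        toTorus ∘ fun p : ℝ × (Fin d → ℝ) => γ p.2 p.1 := by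
      funext p
      exact hP p.1 p.2
    rw [h1]
    exact hq0.isQuotientMap.continuous.comp hcont

end Pool.Agent.Y220.MH
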